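import Pool.Agent.U503.HP.Stm

/-!
# Project HP, package INF: infinite products of copies in disjoint balls
-/

set_option autoImplicit false

open Set Filter Topology Function
open Pool.Agent.Y453.HB Pool.Agent.R773.HN Pool.Agent.N235.DH

namespace Pool.Agent.U858.HP

variable {n : ℕ}

/-- the data: disjoint small balls and copies of the homeomorphisms in them -/
structure Dat (n : ℕ) where
  z : E n
  r : ℝ
  q : ℕ → E n
  R : ℕ → ℝ
  hzr : nm z + r < 1
  hR : ∀ k, 0 < R k
  hR0 : Tendsto R atTop (𝓝 0)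
  hdis : ∀ j k, j ≠ k → Disjoint (D (q j) (R j)) (D (q k) (R k))
  hsub : ∀ k, D (q k) (R k) ⊆ D z r
  dl : ℕ → HamBar n → (E n ≃ₜ E n)
  dl_HK : ∀ k f, dl k f ∈ HK n (D z r)
  dl_supp : ∀ k f, Supp (D (q k) (R k)) (dl k f)
  dl_apply : ∀ k f x, dl k f (q k + R k • x) = q k + R k • (f : E n ≃ₜ E n) x

namespace Dat

variable (d : Dat n)

theorem pt (k : ℕ) (y : E n) : d.q k + d.R k • ((d.R k)⁻¹ • (y - d.q k)) = y := by
  rw [smul_smul, mul_inv_cancel₀ (d.hR k).ne', one_smul, add_sub_cancel]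

theorem dl_eq (k : ℕ) (f : HamBar n) (y : E n) :
    d.dl k f y = d.q k + d.R k • (f : E n ≃ₜ E n) ((d.R k)⁻¹ • (y - d.q k)) := by
  conv_lhs => rw [← d.pt k y]
  rw [d.dl_apply]

theorem dl_mul (k : ℕ) (f g : HamBar n) (y : E n) : d.dl k (f * g) y = d.dl k f (d.dl k g y) := by
  rw [d.dl_eq k (f * g), d.dl_eq k g, d.dl_apply]
  rfl

theorem dl_one (k : ℕ) (y : E n) : d.dl k 1 y = y := by
  rw [d.dl_eq]
  exact d.pt k y

open Classical in
/-- the infinite product, as a map -/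
noncomputable def X (F : ℕ → HamBar n) (y : E n) : E n :=
  if h : ∃ k, y ∈ D (d.q k) (d.R k) then d.dl h.choose (F h.choose) y else y

theorem X_mem (F : ℕ → HamBar n) {k : ℕ} {y : E n} (hy : y ∈ D (d.q k) (d.R k)) :
    d.X F y = d.dl k (F k) y := by
  have h : ∃ k, y ∈ D (d.q k) (d.R k) := ⟨k, hy⟩
  have h1 : h.choose = k := by
    by_contra hne
    exact Set.disjoint_left.1 (d.hdis _ _ hne) h.choose_spec hy
  unfold X
  rw [dif_pos h, h1]

theorem X_notMem (F : ℕ → HamBar n) {y : E n} (hy : ∀ k, y ∉ D (d.q k) (d.R k)) :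
    d.X F y = y := by
  unfold X
  rw [dif_neg]
  rintro ⟨k, hk⟩
  exact hy k hk

theorem X_maps (F : ℕ → HamBar n) {k : ℕ} {y : E n} (hy : y ∈ D (d.q k) (d.R k)) :
    d.X F y ∈ D (d.q k) (d.R k) := by
  rw [d.X_mem F hy]
  exact (d.dl_supp k (F k)).maps hy

theorem X_mul (F G : ℕ → HamBar n) (y : E n) : d.X (F * G) y = d.X F (d.X G y) := by
  by_cases h : ∃ k, y ∈ D (d.q k) (d.R k)
  · obtain ⟨k, hk⟩ := h
    rw [d.X_mem F (d.X_maps G hk), d.X_mem G hk, d.X_mem (F * G) hk, Pi.mul_apply, d.dl_mul]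
  · push Not at h
    rw [d.X_notMem G h, d.X_notMem F h, d.X_notMem _ h]

theorem X_one (y : E n) : d.X 1 y = y := by
  by_cases h : ∃ k, y ∈ D (d.q k) (d.R k)
  · obtain ⟨k, hk⟩ := h
    rw [d.X_mem 1 hk, Pi.one_apply, d.dl_one]
  · push Not at h
    rw [d.X_notMem _ h]

/-- the partial products -/
noncomputable def w (F : ℕ → HamBar n) : ℕ → (E n ≃ₜ E n)
  | 0 => 1
  | m + 1 => d.dl m (F m) * w F m

theorem w_HK (F : ℕ → HamBar n) (m : ℕ) : d.w F m ∈ HK n (D d.z d.r) := by
  induction m with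
  | zero => exact HK_one _
  | succ m ih => exact HK_mul (D_compact _ _) (d.dl_HK m (F m)) ih

theorem w_apply (F : ℕ → HamBar n) (m : ℕ) (y : E n) :
    (∃ k < m, y ∈ D (d.q k) (d.R k) ∧ d.w F m y = d.dl k (F k) y) ∨
      ((∀ k < m, y ∉ D (d.q k) (d.R k)) ∧ d.w F m y = y) := by
  induction m with
  | zero => exact Or.inr ⟨fun k hk => absurd hk (Nat.not_lt_zero k), rfl⟩
  | succ m ih =>
    have hw : d.w F (m + 1) y = d.dl m (F m) (d.w F m y) := rfl
    rcases ih with ⟨k, hk, hy, he⟩ | ⟨hy, he⟩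
    · refine Or.inl ⟨k, Nat.lt_succ_of_lt hk, hy, ?_⟩
      rw [hw, he]
      apply d.dl_supp m (F m)
      intro h
      exact Set.disjoint_left.1 (d.hdis k m (by omega)) ((d.dl_supp k (F k)).maps hy) h
    · by_cases hm : y ∈ D (d.q m) (d.R m)
      · refine Or.inl ⟨m, Nat.lt_succ_self m, hm, ?_⟩
        rw [hw, he]
      · refine Or.inr ⟨fun k hk => ?_, ?_⟩
        · rcases Nat.lt_succ_iff_lt_or_eq.1 hk with h | h
          · exact hy k h
          · rw [h]
            exact hm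
        · rw [hw, he]
          exact d.dl_supp m (F m) y hm

theorem unif (F : ℕ → HamBar n) :
    TendstoUniformly (fun (m : ℕ) (y : E n) => d.w F m y) (fun y => d.X F y) atTop := by
  rw [Metric.tendstoUniformly_iff]
  intro ε hε
  obtain ⟨M, hM⟩ := eventually_atTop.1 (d.hR0.eventually (gt_mem_nhds (half_pos hε)))
  filter_upwards [eventually_ge_atTop M] with m hm y
  rcases d.w_apply F m y with ⟨k, hk, hy, he⟩ | ⟨hy, he⟩
  · rw [he, d.X_mem F hy, dist_self]
    exact hε
  · rw [he]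
    by_cases h : ∃ k, y ∈ D (d.q k) (d.R k)
    · obtain ⟨k, hk⟩ := h
      have hkm : m ≤ k := by
        by_contra hc
        exact hy k (not_le.1 hc) hk
      have h1 : nm (d.X F y - d.q k) ≤ d.R k := d.X_maps F hk
      have h2 : nm (d.q k - y) ≤ d.R k := by
        rw [nm_sub_comm]
        exact hk
      have h3 := nm_tri (d.X F y) (d.q k) y
      have h4 := norm_le_nm (d.X F y - y)
      have h5 := hM k (hm.trans hkm)
      rw [dist_eq_norm]
      linarith
    · push Not at h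
      rw [d.X_notMem F h, dist_self]
      exact hε

theorem X_cont (F : ℕ → HamBar n) : Continuous (d.X F) :=
  (d.unif F).continuous (Frequently.of_forall fun m => (d.w F m).continuous)

/-- the infinite product -/
noncomputable def H (F : ℕ → HamBar n) : E n ≃ₜ E n where
  toFun := d.X F
  invFun := d.X F⁻¹
  left_inv y := by rw [← d.X_mul, inv_mul_cancel, d.X_one]
  right_inv y := by rw [← d.X_mul, mul_inv_cancel, d.X_one]
  continuous_toFun := d.X_cont F
  continuous_invFun := d.X_cont F⁻¹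

theorem H_apply (F : ℕ → HamBar n) (y : E n) : d.H F y = d.X F y := rfl

theorem H_HK (F : ℕ → HamBar n) : d.H F ∈ HK n (D d.z d.r) := by
  refine HK_closed (d.w_HK F) ?_ (d.unif F)
  intro y hy
  exact d.X_notMem F fun k hk => hy (d.hsub k hk)

theorem sub_Q : D d.z d.r ⊆ {p : E n | Q p < 1} := by
  intro p hp
  have h1 : nm (p - d.z) ≤ d.r := hp
  have h2 := nm_add (p - d.z) d.z
  rw [sub_add_cancel] at h2
  have h3 : nm p < 1 := by linarith [d.hzr]
  unfold nm at h3
  rw [Real.sqrt_lt' one_pos] at h3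
  simpa using h3

theorem H_mem (F : ℕ → HamBar n) : d.H F ∈ HamBar n :=
  HK_mem (D_compact _ _) d.sub_Q (d.H_HK F)

/-- the homomorphism -/
noncomputable def P : (ℕ → HamBar n) →* (E n ≃ₜ E n) :=
  MonoidHom.mk' d.H fun F G => Homeomorph.ext fun y => d.X_mul F G y

theorem P_apply (F : ℕ → HamBar n) : d.P F = d.H F := rfl

end Dat

theorem t_INF (hDL : Pool.Agent.U503.HP.S_DL) : Pool.Agent.U503.HP.S_INF := by
  intro n z r q R hn hzr hR hR0 hdis hsub
  have h := fun (k : ℕ) (f : HamBar n) => hDL n z (q k) r (R k) hn hzr (hR k) (hsub k) f f.2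
  choose dl h1 h2 h3 using h
  let d : Dat n :=
    { z := z, r := r, q := q, R := R, hzr := hzr, hR := hR, hR0 := hR0, hdis := hdis,
      hsub := hsub, dl := dl, dl_HK := h1, dl_supp := h2, dl_apply := h3 }
  refine ⟨d.P, fun F => ⟨d.H_mem F, fun k x hx => ?_, fun y hy => d.X_notMem F hy⟩⟩
  have hmem : q k + R k • x ∈ D (q k) (R k) := by
    show nm (q k + R k • x - q k) ≤ R k
    rw [add_sub_cancel_left, nm_smul, abs_of_pos (hR k)]
    have := mul_le_mul_of_nonneg_left hx (hR k).le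
    rwa [mul_one] at this
  exact (d.X_mem F hmem).trans (h3 k (F k) x)

end Pool.Agent.U858.HP

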